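import Mathlib
import Pool.Agent.R35.RPProb

set_option autoImplicit false

/-!
# Almost every graph has an irreducible non-metrizable consistent path system
-/

namespace Pool.Agent.Results.MP_696e10_co.RandomGraph

open Filter Topology

/-- A path system: one simple path for every pair of vertices (the path for the pair read
backwards is the reversed path). -/
structure PathSystem {V : Type} (G : SimpleGraph V) where
  /-- the chosen path -/
  path : ∀ u v : V, G.Walk u v
  /-- it is a simple path -/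
  isPath : ∀ u v, (path u v).IsPath
  /-- it does not depend on the order of the two ends -/
  symm : ∀ u v, path v u = (path u v).reverse

/-- Consistency: every segment of a path of the system is the path of the system. -/
def PathSystem.Consistent {V : Type} {G : SimpleGraph V} (P : PathSystem G) : Prop :=
  ∀ (u v x y : V) (q : G.Walk x y), q.IsSubwalk (P.path u v) → q = P.path x y

/-- The weight of a walk. -/
noncomputable def weight {V : Type} {G : SimpleGraph V} (w : Sym2 V → ℝ) {u v : V}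
    (p : G.Walk u v) : ℝ := (p.edges.map w).sum

/-- Metrizability: positive edge weights for which all paths of the system are shortest paths. -/
def PathSystem.Metrizable {V : Type} {G : SimpleGraph V} (P : PathSystem G) : Prop :=
  ∃ w : Sym2 V → ℝ, (∀ e ∈ G.edgeSet, 0 < w e) ∧
    ∀ (u v : V) (q : G.Walk u v), q.IsPath → weight w (P.path u v) ≤ weight w q

/-- `A` and its complement form a reduction of the path system. -/
def PathSystem.IsReduction {V : Type} {G : SimpleGraph V} (P : PathSystem G) (A : Set V) : Prop :=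
  A.Nonempty ∧ Aᶜ.Nonempty ∧
    (∀ u ∈ A, ∀ v ∈ A, ∀ z ∈ (P.path u v).support, z ∈ A) ∧
    (∀ u ∈ Aᶜ, ∀ v ∈ Aᶜ, ∀ z ∈ (P.path u v).support, z ∈ Aᶜ)

/-- No reduction. -/
def PathSystem.Irreducible {V : Type} {G : SimpleGraph V} (P : PathSystem G) : Prop :=
  ∀ A : Set V, ¬ P.IsReduction A

/-- The graph admits a consistent path system that is irreducible and not metrizable. -/
def Admits {V : Type} (G : SimpleGraph V) : Prop :=
  ∃ P : PathSystem G, P.Consistent ∧ P.Irreducible ∧ ¬ P.Metrizable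

/-! ## Path systems from lists -/

theorem exists_system {V : Type} (G : SimpleGraph V) (L : V → V → List V)
    (hhead : ∀ u v, (L u v).head? = some u)
    (hlast : ∀ u v, (L u v).getLast? = some v)
    (hchain : ∀ u v, (L u v).IsChain G.Adj)
    (hnodup : ∀ u v, (L u v).Nodup)
    (hrev : ∀ u v, L v u = (L u v).reverse)
    (hcons : ∀ u v x y m, m <:+: L u v → m.head? = some x → m.getLast? = some y → m = L x y) :
    ∃ P : PathSystem G, P.Consistent ∧ ∀ u v, (P.path u v).support = L u v := by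
  have hne : ∀ u v, L u v ≠ [] := by
    intro u v h
    have := hhead u v
    rw [h] at this
    simp at this
  have hh : ∀ u v, (L u v).head (hne u v) = u := by
    intro u v
    have := hhead u v
    rw [List.head?_eq_some_head (hne u v)] at this
    exact Option.some_injective _ this
  have hl : ∀ u v, (L u v).getLast (hne u v) = v := by
    intro u v
    have := hlast u v
    rw [List.getLast?_eq_some_getLast (hne u v)] at this
    exact Option.some_injective _ this
  let p : ∀ u v : V, G.Walk u v := fun u v =>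
    (SimpleGraph.Walk.ofSupport (L u v) (hne u v) (hchain u v)).copy (hh u v) (hl u v)
  have hp : ∀ u v, (p u v).support = L u v := by
    intro u v
    simp only [p, SimpleGraph.Walk.support_copy, SimpleGraph.Walk.support_ofSupport]
  refine ⟨⟨p, ?_, ?_⟩, ?_, hp⟩
  · intro u v
    rw [SimpleGraph.Walk.isPath_def, hp]
    exact hnodup u v
  · intro u v
    apply SimpleGraph.Walk.ext_support
    rw [SimpleGraph.Walk.support_reverse, hp, hp]
    exact hrev u v
  · intro u v x y q hq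
    apply SimpleGraph.Walk.ext_support
    change q.support = (p x y).support
    rw [hp]
    rw [SimpleGraph.Walk.isSubwalk_iff_support_isInfix] at hq
    change q.support <:+: (p u v).support at hq
    rw [hp] at hq
    apply hcons u v x y _ hq
    · rw [List.head?_eq_some_head q.support_ne_nil, SimpleGraph.Walk.head_support]
    · rw [List.getLast?_eq_some_getLast q.support_ne_nil, SimpleGraph.Walk.getLast_support]

theorem infix2 {V : Type} {s t : V} {m : List V} (h : m <:+: [s, t]) :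
    m = [] ∨ m = [s] ∨ m = [t] ∨ m = [s, t] := by
  simp only [List.infix_cons_iff, List.prefix_cons_iff, List.prefix_nil, List.infix_nil] at h
  grind

theorem infix3 {V : Type} {s t r : V} {m : List V} (h : m <:+: [s, t, r]) :
    m = [] ∨ m = [s] ∨ m = [t] ∨ m = [r] ∨ m = [s, t] ∨ m = [t, r] ∨ m = [s, t, r] := by
  simp only [List.infix_cons_iff, List.prefix_cons_iff, List.prefix_nil, List.infix_nil] at h
  grind

theorem infix4 {V : Type} {s t r w : V} {m : List V} (h : m <:+: [s, t, r, w]) :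
    m = [] ∨ m = [s] ∨ m = [t] ∨ m = [r] ∨ m = [w] ∨ m = [s, t] ∨ m = [t, r] ∨ m = [r, w] ∨
      m = [s, t, r] ∨ m = [t, r, w] ∨ m = [s, t, r, w] := by
  simp only [List.infix_cons_iff, List.prefix_cons_iff, List.prefix_nil, List.infix_nil] at h
  grind

/-! ## The construction -/

section construction

variable {V : Type} [AddCommGroup V] (G : SimpleGraph V) (a a' b b' x y z : V)

open scoped Classical in
/-- the middle vertices, as a function of the pair, the sum and the common neighbourhood -/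
noncomputable def Fc (e : Sym2 V) (c : V) (N : Set V) : V :=
  if e = s(a, y) ∨ e = s(a', y) then x
  else if e = s(x, b) ∨ e = s(x, b') then y
  else if e = s(a, a') ∨ e = s(b, b') then z
  else if -c ∈ N then -c
  else if h : N.Nonempty then h.some else 0

/-- the middle vertices -/
noncomputable def F (u v : V) : V := Fc a a' b b' x y z s(u, v) (u + v) (G.commonNeighbors u v)

theorem F_symm (u v : V) : F G a a' b b' x y z u v = F G a a' b b' x y z v u := by
  unfold F
  rw [Sym2.eq_swap, add_comm, G.commonNeighbors_symm]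

/-- the special pairs -/
def Sp (u v : V) : Prop := (u = a ∧ v = b) ∨ (u = a' ∧ v = b')

open scoped Classical in
/-- the supports of the paths -/
noncomputable def L (u v : V) : List V :=
  if u = v then [u]
  else if G.Adj u v then [u, v]
  else if Sp a a' b b' u v then [u, x, y, v]
  else if Sp a a' b b' v u then [u, y, x, v]
  else [u, F G a a' b b' x y z u v, v]

/-- the gadget -/
structure Gadget : Prop where
  nodup : [a, a', b, b', x, y, z].Nodup
  ax : G.Adj a x
  a'x : G.Adj a' x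
  xy : G.Adj x y
  yb : G.Adj y b
  yb' : G.Adj y b'
  az : G.Adj a z
  a'z : G.Adj a' z
  bz : G.Adj b z
  b'z : G.Adj b' z
  ab : ¬ G.Adj a b
  a'b' : ¬ G.Adj a' b'
  aa' : ¬ G.Adj a a'
  bb' : ¬ G.Adj b b'
  ay : ¬ G.Adj a y
  a'y : ¬ G.Adj a' y
  xb : ¬ G.Adj x b
  xb' : ¬ G.Adj x b'

variable {G a a' b b' x y z}

theorem F_spec (hg : Gadget G a a' b b' x y z) (hcn : ∀ u v, u ≠ v → ∃ z, G.Adj u z ∧ G.Adj v z)
    (u v : V) (huv : u ≠ v) :
    G.Adj u (F G a a' b b' x y z u v) ∧ G.Adj (F G a a' b b' x y z u v) v := by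
  unfold F Fc
  split_ifs with h1 h2 h3 h4 h5
  · simp only [Sym2.eq_iff] at h1
    rcases h1 with (⟨rfl, rfl⟩ | ⟨rfl, rfl⟩) | (⟨rfl, rfl⟩ | ⟨rfl, rfl⟩)
    · exact ⟨hg.ax, hg.xy⟩
    · exact ⟨hg.xy.symm, hg.ax.symm⟩
    · exact ⟨hg.a'x, hg.xy⟩
    · exact ⟨hg.xy.symm, hg.a'x.symm⟩
  · simp only [Sym2.eq_iff] at h2
    rcases h2 with (⟨rfl, rfl⟩ | ⟨rfl, rfl⟩) | (⟨rfl, rfl⟩ | ⟨rfl, rfl⟩)
    · exact ⟨hg.xy, hg.yb⟩
    · exact ⟨hg.yb.symm, hg.xy.symm⟩
    · exact ⟨hg.xy, hg.yb'⟩
    · exact ⟨hg.yb'.symm, hg.xy.symm⟩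
  · simp only [Sym2.eq_iff] at h3
    rcases h3 with (⟨rfl, rfl⟩ | ⟨rfl, rfl⟩) | (⟨rfl, rfl⟩ | ⟨rfl, rfl⟩)
    · exact ⟨hg.az, hg.a'z.symm⟩
    · exact ⟨hg.a'z, hg.az.symm⟩
    · exact ⟨hg.bz, hg.b'z.symm⟩
    · exact ⟨hg.b'z, hg.bz.symm⟩
  · rw [SimpleGraph.mem_commonNeighbors] at h4
    exact ⟨h4.1, h4.2.symm⟩
  · have h6 := h5.some_mem
    rw [SimpleGraph.mem_commonNeighbors] at h6
    exact ⟨h6.1, h6.2.symm⟩
  · exfalso
    obtain ⟨c, hc1, hc2⟩ := hcn u v huv
    exact h5 ⟨c, by rw [SimpleGraph.mem_commonNeighbors]; exact ⟨hc1, hc2⟩⟩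

theorem L_self (u : V) : L G a a' b b' x y z u u = [u] := by simp [L]

theorem L_adj {u v : V} (h : G.Adj u v) : L G a a' b b' x y z u v = [u, v] := by
  simp [L, h, h.ne]

theorem L_sp {u v : V} (h1 : u ≠ v) (h2 : ¬ G.Adj u v) (h3 : Sp a a' b b' u v) :
    L G a a' b b' x y z u v = [u, x, y, v] := by
  simp [L, h1, h2, h3]

theorem L_ps {u v : V} (h1 : u ≠ v) (h2 : ¬ G.Adj u v) (h3 : ¬ Sp a a' b b' u v)
    (h4 : Sp a a' b b' v u) :
    L G a a' b b' x y z u v = [u, y, x, v] := by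
  simp [L, h1, h2, h3, h4]

theorem L_mid {u v : V} (h1 : u ≠ v) (h2 : ¬ G.Adj u v) (h3 : ¬ Sp a a' b b' u v)
    (h4 : ¬ Sp a a' b b' v u) :
    L G a a' b b' x y z u v = [u, F G a a' b b' x y z u v, v] := by
  simp [L, h1, h2, h3, h4]

theorem L_rev (hg : Gadget G a a' b b' x y z) (u v : V) :
    L G a a' b b' x y z v u = (L G a a' b b' x y z u v).reverse := by
  have hnd := hg.nodup
  simp only [List.nodup_cons, List.mem_cons, List.not_mem_nil, or_false, not_or,
    List.nodup_nil, and_true] at hnd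
  by_cases h1 : u = v
  · subst h1
    simp [L_self]
  by_cases h2 : G.Adj u v
  · rw [L_adj h2, L_adj h2.symm]
    rfl
  have h1' : v ≠ u := fun h => h1 h.symm
  have h2' : ¬ G.Adj v u := fun h => h2 h.symm
  by_cases h3 : Sp a a' b b' u v
  · have h4 : ¬ Sp a a' b b' v u := by
      unfold Sp at h3 ⊢
      grind
    rw [L_sp h1 h2 h3, L_ps h1' h2' h4 h3]
    rfl
  · by_cases h4 : Sp a a' b b' v u
    · rw [L_ps h1 h2 h3 h4, L_sp h1' h2' h4]
      rfl
    · rw [L_mid h1 h2 h3 h4, L_mid h1' h2' h4 h3, F_symm]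
      rfl

theorem F_ay : F G a a' b b' x y z a y = x := by simp [F, Fc]

theorem F_a'y : F G a a' b b' x y z a' y = x := by simp [F, Fc]

theorem F_xb (hg : Gadget G a a' b b' x y z) : F G a a' b b' x y z x b = y := by
  have hnd := hg.nodup
  simp only [List.nodup_cons, List.mem_cons, List.not_mem_nil, or_false, not_or,
    List.nodup_nil, and_true] at hnd
  unfold F Fc
  rw [if_neg, if_pos]
  · left; rfl
  · simp only [Sym2.eq_iff]
    grind

theorem F_xb' (hg : Gadget G a a' b b' x y z) : F G a a' b b' x y z x b' = y := by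
  have hnd := hg.nodup
  simp only [List.nodup_cons, List.mem_cons, List.not_mem_nil, or_false, not_or,
    List.nodup_nil, and_true] at hnd
  unfold F Fc
  rw [if_neg, if_pos]
  · right; rfl
  · simp only [Sym2.eq_iff]
    grind

theorem F_aa' (hg : Gadget G a a' b b' x y z) : F G a a' b b' x y z a a' = z := by
  have hnd := hg.nodup
  simp only [List.nodup_cons, List.mem_cons, List.not_mem_nil, or_false, not_or,
    List.nodup_nil, and_true] at hnd
  unfold F Fc
  rw [if_neg, if_neg, if_pos]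
  · left; rfl
  · simp only [Sym2.eq_iff]
    grind
  · simp only [Sym2.eq_iff]
    grind

theorem F_bb' (hg : Gadget G a a' b b' x y z) : F G a a' b b' x y z b b' = z := by
  have hnd := hg.nodup
  simp only [List.nodup_cons, List.mem_cons, List.not_mem_nil, or_false, not_or,
    List.nodup_nil, and_true] at hnd
  unfold F Fc
  rw [if_neg, if_neg, if_pos]
  · right; rfl
  · simp only [Sym2.eq_iff]
    grind
  · simp only [Sym2.eq_iff]
    grind

theorem L_sub (hg : Gadget G a a' b b' x y z) {u v : V} (h : Sp a a' b b' u v) :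
    L G a a' b b' x y z u y = [u, x, y] ∧ L G a a' b b' x y z x v = [x, y, v] ∧
      u ≠ v ∧ ¬ G.Adj u v ∧ G.Adj u x ∧ G.Adj x y ∧ G.Adj y v ∧ u ≠ y ∧ x ≠ v := by
  have hnd := hg.nodup
  simp only [List.nodup_cons, List.mem_cons, List.not_mem_nil, or_false, not_or,
    List.nodup_nil, and_true] at hnd
  obtain ⟨⟨n1, n2, n3, n4, n5, n6⟩, ⟨n7, n8, n9, n10, n11⟩, ⟨n12, n13, n14, n15⟩,
    ⟨n16, n17, n18⟩, ⟨n19, n20⟩, n21, _⟩ := hnd
  rcases h with ⟨rfl, rfl⟩ | ⟨rfl, rfl⟩
  · refine ⟨?_, ?_, n2, hg.ab, hg.ax, hg.xy, hg.yb, n5, fun h => n13 h.symm⟩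
    · rw [L_mid n5 hg.ay, F_ay]
      · unfold Sp; grind
      · unfold Sp; grind
    · rw [L_mid (fun h => n13 h.symm) hg.xb, F_xb hg]
      · unfold Sp; grind
      · unfold Sp; grind
  · refine ⟨?_, ?_, n8, hg.a'b', hg.a'x, hg.xy, hg.yb', n10, fun h => n16 h.symm⟩
    · rw [L_mid n10 hg.a'y, F_a'y]
      · unfold Sp; grind
      · unfold Sp; grind
    · rw [L_mid (fun h => n16 h.symm) hg.xb', F_xb' hg]
      · unfold Sp; grind
      · unfold Sp; grind

omit [AddCommGroup V] in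
theorem L_cases (u v : V) : (u = v) ∨ (u ≠ v ∧ G.Adj u v) ∨
    (u ≠ v ∧ ¬ G.Adj u v ∧ Sp a a' b b' u v) ∨
    (u ≠ v ∧ ¬ G.Adj u v ∧ ¬ Sp a a' b b' u v ∧ Sp a a' b b' v u) ∨
    (u ≠ v ∧ ¬ G.Adj u v ∧ ¬ Sp a a' b b' u v ∧ ¬ Sp a a' b b' v u) := by
  tauto

theorem L_chain (hg : Gadget G a a' b b' x y z)
    (hcn : ∀ u v, u ≠ v → ∃ z, G.Adj u z ∧ G.Adj v z) (u v : V) :
    (L G a a' b b' x y z u v).IsChain G.Adj ∧ (L G a a' b b' x y z u v).Nodup ∧
      (L G a a' b b' x y z u v).head? = some u ∧ (L G a a' b b' x y z u v).getLast? = some v := by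
  rcases L_cases (G := G) (a := a) (a' := a') (b := b) (b' := b') u v with
    rfl | ⟨h1, h2⟩ | ⟨h1, h2, h3⟩ | ⟨h1, h2, h3, h4⟩ | ⟨h1, h2, h3, h4⟩
  · rw [L_self]; simp
  · rw [L_adj h2]; simp [h1, h2]
  · rw [L_sp h1 h2 h3]
    obtain ⟨-, -, -, -, g1, g2, g3, g4, g5⟩ := L_sub hg h3
    simp [g1, g2, g3, g4, g5, g1.ne, g2.ne, g3.ne, h1]
  · rw [L_ps h1 h2 h3 h4]
    obtain ⟨-, -, -, -, g1, g2, g3, g4, g5⟩ := L_sub hg h4
    simp [g1.symm, g2.symm, g3.symm, g4.symm, g5.symm, g1.ne.symm, g2.ne.symm, g3.ne.symm, h1]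
  · rw [L_mid h1 h2 h3 h4]
    obtain ⟨f1, f2⟩ := F_spec hg hcn u v h1
    simp [f1, f2, f1.ne, f2.ne, h1]

theorem L_cons (hg : Gadget G a a' b b' x y z)
    (hcn : ∀ u v, u ≠ v → ∃ z, G.Adj u z ∧ G.Adj v z) (u v p q : V) (m : List V)
    (hm : m <:+: L G a a' b b' x y z u v) (hh : m.head? = some p) (hl : m.getLast? = some q) :
    m = L G a a' b b' x y z p q := by
  have key : m = [] ∨ ∃ p' q', m = L G a a' b b' x y z p' q' := by
    rcases L_cases (G := G) (a := a) (a' := a') (b := b) (b' := b') u v with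
      rfl | ⟨h1, h2⟩ | ⟨h1, h2, h3⟩ | ⟨h1, h2, h3, h4⟩ | ⟨h1, h2, h3, h4⟩
    · rw [L_self] at hm
      have : m = [] ∨ m = [u] := by
        simp only [List.infix_cons_iff, List.prefix_cons_iff, List.prefix_nil,
          List.infix_nil] at hm
        grind
      rcases this with h | h
      · exact Or.inl h
      · exact Or.inr ⟨u, u, by rw [L_self]; exact h⟩
    · rw [L_adj h2] at hm
      rcases infix2 hm with h | h | h | h
      · exact Or.inl h
      · exact Or.inr ⟨u, u, by rw [L_self]; exact h⟩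
      · exact Or.inr ⟨v, v, by rw [L_self]; exact h⟩
      · exact Or.inr ⟨u, v, by rw [L_adj h2]; exact h⟩
    · have hL := L_sp (x := x) (y := y) (z := z) h1 h2 h3
      rw [hL] at hm
      obtain ⟨g8, g9, -, -, g1, g2, g3, g4, g5⟩ := L_sub hg h3
      rcases infix4 hm with h | h | h | h | h | h | h | h | h | h | h
      · exact Or.inl h
      · exact Or.inr ⟨u, u, by rw [L_self]; exact h⟩
      · exact Or.inr ⟨x, x, by rw [L_self]; exact h⟩
      · exact Or.inr ⟨y, y, by rw [L_self]; exact h⟩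
      · exact Or.inr ⟨v, v, by rw [L_self]; exact h⟩
      · exact Or.inr ⟨u, x, by rw [L_adj g1]; exact h⟩
      · exact Or.inr ⟨x, y, by rw [L_adj g2]; exact h⟩
      · exact Or.inr ⟨y, v, by rw [L_adj g3]; exact h⟩
      · exact Or.inr ⟨u, y, by rw [g8]; exact h⟩
      · exact Or.inr ⟨x, v, by rw [g9]; exact h⟩
      · exact Or.inr ⟨u, v, by rw [hL]; exact h⟩
    · have hL := L_ps (x := x) (y := y) (z := z) h1 h2 h3 h4
      rw [hL] at hm
      obtain ⟨g8, g9, -, -, g1, g2, g3, g4, g5⟩ := L_sub hg h4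
      rcases infix4 hm with h | h | h | h | h | h | h | h | h | h | h
      · exact Or.inl h
      · exact Or.inr ⟨u, u, by rw [L_self]; exact h⟩
      · exact Or.inr ⟨y, y, by rw [L_self]; exact h⟩
      · exact Or.inr ⟨x, x, by rw [L_self]; exact h⟩
      · exact Or.inr ⟨v, v, by rw [L_self]; exact h⟩
      · exact Or.inr ⟨u, y, by rw [L_adj g3.symm]; exact h⟩
      · exact Or.inr ⟨y, x, by rw [L_adj g2.symm]; exact h⟩
      · exact Or.inr ⟨x, v, by rw [L_adj g1.symm]; exact h⟩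
      · exact Or.inr ⟨u, x, by rw [L_rev hg, g9]; exact h⟩
      · exact Or.inr ⟨y, v, by rw [L_rev hg, g8]; exact h⟩
      · exact Or.inr ⟨u, v, by rw [hL]; exact h⟩
    · have hL := L_mid (x := x) (y := y) (z := z) h1 h2 h3 h4
      obtain ⟨f1, f2⟩ := F_spec hg hcn u v h1
      rw [hL] at hm
      rcases infix3 hm with h | h | h | h | h | h | h
      · exact Or.inl h
      · exact Or.inr ⟨u, u, by rw [L_self]; exact h⟩
      · exact Or.inr ⟨_, _, by rw [L_self]; exact h⟩
      · exact Or.inr ⟨v, v, by rw [L_self]; exact h⟩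
      · exact Or.inr ⟨u, _, by rw [L_adj f1]; exact h⟩
      · exact Or.inr ⟨_, v, by rw [L_adj f2]; exact h⟩
      · exact Or.inr ⟨u, v, by rw [hL]; exact h⟩
  rcases key with h | ⟨p', q', h⟩
  · rw [h] at hh
    simp at hh
  · obtain ⟨-, -, e1, e2⟩ := L_chain hg hcn p' q'
    rw [h, e1] at hh
    rw [h, e2] at hl
    obtain rfl := Option.some_injective _ hh
    obtain rfl := Option.some_injective _ hl
    exact h

omit [AddCommGroup V] in
theorem weight_two {w : Sym2 V → ℝ} {u m v : V} (p : G.Walk u v) (hp : p.support = [u, m, v]) :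
    weight w p = w s(u, m) + w s(m, v) := by
  have hc := p.isChain_adj_support
  rw [hp] at hc
  simp only [List.isChain_cons_cons, List.isChain_singleton, and_true] at hc
  have : p = SimpleGraph.Walk.cons hc.1 (SimpleGraph.Walk.cons hc.2 SimpleGraph.Walk.nil) := by
    apply SimpleGraph.Walk.ext_support
    rw [hp]
    rfl
  rw [this]
  simp [weight]

omit [AddCommGroup V] in
theorem weight_three {w : Sym2 V → ℝ} {u m m' v : V} (p : G.Walk u v)
    (hp : p.support = [u, m, m', v]) :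
    weight w p = w s(u, m) + w s(m, m') + w s(m', v) := by
  have hc := p.isChain_adj_support
  rw [hp] at hc
  simp only [List.isChain_cons_cons, List.isChain_singleton, and_true] at hc
  have : p = SimpleGraph.Walk.cons hc.1 (SimpleGraph.Walk.cons hc.2.1
      (SimpleGraph.Walk.cons hc.2.2 SimpleGraph.Walk.nil)) := by
    apply SimpleGraph.Walk.ext_support
    rw [hp]
    rfl
  rw [this]
  simp [weight]
  ring

omit [AddCommGroup V] in
/-- two-edge competitor -/
theorem comp_two {w : Sym2 V → ℝ} {P : PathSystem G}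
    (hw : ∀ (u v : V) (q : G.Walk u v), q.IsPath → weight w (P.path u v) ≤ weight w q)
    {u m v : V} (h1 : G.Adj u m) (h2 : G.Adj m v) (h3 : u ≠ v) :
    weight w (P.path u v) ≤ w s(u, m) + w s(m, v) := by
  have := hw u v (SimpleGraph.Walk.cons h1 (SimpleGraph.Walk.cons h2 SimpleGraph.Walk.nil)) (by
    rw [SimpleGraph.Walk.isPath_def]
    simp [h1.ne, h2.ne, h3])
  refine this.trans (le_of_eq ?_)
  simp [weight]

theorem admits_of (S : Set V) (hg : Gadget G a a' b b' x y z)
    (hS : ∀ c ∈ [a, a', b, b', x, y, z], c ∈ S)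
    (hcn : ∀ u v, u ≠ v → ∃ z, G.Adj u z ∧ G.Adj v z)
    (hirr : ∀ A : Set V, A.Nonempty → Aᶜ.Nonempty → ∃ p q r, q = -(p + r) ∧ ¬ (p ∈ S ∧ r ∈ S) ∧
      p ≠ r ∧ ¬ G.Adj p r ∧ G.Adj p q ∧ G.Adj r q ∧
      ((p ∈ A ∧ r ∈ A ∧ q ∉ A) ∨ (p ∉ A ∧ r ∉ A ∧ q ∈ A))) : Admits G := by
  obtain ⟨P, hP, hsup⟩ := exists_system G (L G a a' b b' x y z)
    (fun u v => (L_chain hg hcn u v).2.2.1) (fun u v => (L_chain hg hcn u v).2.2.2)
    (fun u v => (L_chain hg hcn u v).1) (fun u v => (L_chain hg hcn u v).2.1)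
    (fun u v => L_rev hg u v) (fun u v p q m => L_cons hg hcn u v p q m)
  simp only [List.mem_cons, List.not_mem_nil, or_false, forall_eq_or_imp, forall_eq] at hS
  obtain ⟨s1, s2, s3, s4, s5, s6, s7⟩ := hS
  refine ⟨P, hP, ?_, ?_⟩
  · rintro A ⟨hA, hA', hc1, hc2⟩
    obtain ⟨p, q, r, hq, hns, hpr, hadj, h1, h2, h3⟩ := hirr A hA hA'
    have hF : F G a a' b b' x y z p r = q := by
      unfold F Fc
      rw [if_neg, if_neg, if_neg, if_pos, hq]
      · rw [← hq, SimpleGraph.mem_commonNeighbors]; exact ⟨h1, h2⟩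
      · simp only [Sym2.eq_iff]
        rintro ((⟨rfl, rfl⟩ | ⟨rfl, rfl⟩) | (⟨rfl, rfl⟩ | ⟨rfl, rfl⟩)) <;> exact hns (by tauto)
      · simp only [Sym2.eq_iff]
        rintro ((⟨rfl, rfl⟩ | ⟨rfl, rfl⟩) | (⟨rfl, rfl⟩ | ⟨rfl, rfl⟩)) <;> exact hns (by tauto)
      · simp only [Sym2.eq_iff]
        rintro ((⟨rfl, rfl⟩ | ⟨rfl, rfl⟩) | (⟨rfl, rfl⟩ | ⟨rfl, rfl⟩)) <;> exact hns (by tauto)
    have hL : L G a a' b b' x y z p r = [p, q, r] := by
      rw [L_mid hpr hadj, hF]
      · unfold Sp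
        rintro (⟨rfl, rfl⟩ | ⟨rfl, rfl⟩) <;> exact hns (by tauto)
      · unfold Sp
        rintro (⟨rfl, rfl⟩ | ⟨rfl, rfl⟩) <;> exact hns (by tauto)
    have hmem : q ∈ (P.path p r).support := by
      rw [hsup, hL]
      simp
    rcases h3 with ⟨hp, hr, hq'⟩ | ⟨hp, hr, hq'⟩
    · exact hq' (hc1 p hp r hr q hmem)
    · exact hc2 p hp r hr q hmem hq'
  · rintro ⟨w, hpos, hw⟩
    have hnd := hg.nodup
    simp only [List.nodup_cons, List.mem_cons, List.not_mem_nil, or_false, not_or,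
      List.nodup_nil, and_true] at hnd
    obtain ⟨⟨n1, n2, n3, n4, n5, n6⟩, ⟨n7, n8, n9, n10, n11⟩, ⟨n12, n13, n14, n15⟩,
      ⟨n16, n17, n18⟩, ⟨n19, n20⟩, n21, _⟩ := hnd
    have q1 := comp_two hw hg.az hg.bz.symm n2
    have q2 := comp_two hw hg.a'z hg.b'z.symm n8
    have q3 := comp_two hw hg.ax hg.a'x.symm n1
    have q4 := comp_two hw hg.yb.symm hg.yb' n12
    rw [weight_three (P.path a b) (by
      rw [hsup, L_sp n2 hg.ab (Or.inl ⟨rfl, rfl⟩)])] at q1
    rw [weight_three (P.path a' b') (by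
      rw [hsup, L_sp n8 hg.a'b' (Or.inr ⟨rfl, rfl⟩)])] at q2
    rw [weight_two (P.path a a') (by
      rw [hsup, L_mid n1 hg.aa', F_aa' hg]
      · unfold Sp; grind
      · unfold Sp; grind)] at q3
    rw [weight_two (P.path b b') (by
      rw [hsup, L_mid n12 hg.bb', F_bb' hg]
      · unfold Sp; grind
      · unfold Sp; grind)] at q4
    have hxy := hpos s(x, y) hg.xy
    rw [Sym2.eq_swap (a := z) (b := b)] at q1
    rw [Sym2.eq_swap (a := z) (b := b')] at q2
    rw [Sym2.eq_swap (a := z) (b := a'), Sym2.eq_swap (a := x) (b := a')] at q3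
    rw [Sym2.eq_swap (a := z) (b := b'), Sym2.eq_swap (a := b) (b := y)] at q4
    linarith

end construction

/-! ## Application to typical graphs -/

open Pool.Agent.R35.RPCount in
theorem tri {V : Type} [AddCommGroup V] [Fintype V] (G : SimpleGraph V) (B S : Finset V)
    {t : Finset V} (ht : t ∈ tr B S)
    (hadj : ∀ x ∈ t, ∀ y ∈ t, x ≠ y → (G.Adj x y ↔ ¬ (x ∈ B ↔ y ∈ B))) :
    ∃ p q r, q = -(p + r) ∧ ¬ (p ∈ S ∧ r ∈ S) ∧ p ≠ r ∧ ¬ G.Adj p r ∧ G.Adj p q ∧ G.Adj r q ∧
      ((p ∈ B ∧ r ∈ B ∧ q ∉ B) ∨ (p ∉ B ∧ r ∉ B ∧ q ∈ B)) := by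
  classical
  simp only [tr, Finset.mem_filter, Finset.mem_univ, true_and] at ht
  obtain ⟨h3, h0, ⟨p, hp⟩, ⟨q, hq⟩, hS⟩ := ht
  rw [Finset.mem_inter] at hp
  rw [Finset.mem_sdiff] at hq
  have hpq : p ≠ q := by
    rintro rfl
    exact hq.2 hp.2
  obtain ⟨h4, h5, h6⟩ := tr_third h3 h0 hp.1 hq.1 hpq
  have hr : -p - q ∈ t := by
    rw [h4]
    simp
  have hS' : ∀ c d, c ∈ t → d ∈ t → c ≠ d → ¬ (c ∈ S ∧ d ∈ S) := by
    intro c d hc hd hcd hcs
    have h7 : ¬ 1 < (t ∩ S).card := by omega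
    exact h7 (Finset.one_lt_card.mpr ⟨c, Finset.mem_inter.mpr ⟨hc, hcs.1⟩, d,
      Finset.mem_inter.mpr ⟨hd, hcs.2⟩, hcd⟩)
  by_cases hrB : -p - q ∈ B
  · refine ⟨p, q, -p - q, by abel, hS' _ _ hp.1 hr h5.symm, h5.symm, ?_, ?_, ?_,
      Or.inl ⟨hp.2, hrB, hq.2⟩⟩
    · rw [hadj p hp.1 _ hr h5.symm]
      exact fun h => h ⟨fun _ => hrB, fun _ => hp.2⟩
    · rw [hadj p hp.1 q hq.1 hpq]
      exact fun h => hq.2 (h.mp hp.2)
    · rw [hadj _ hr q hq.1 h6]
      exact fun h => hq.2 (h.mp hrB)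
  · refine ⟨q, p, -p - q, by abel, hS' _ _ hq.1 hr h6.symm, h6.symm, ?_, ?_, ?_,
      Or.inr ⟨hq.2, hrB, hp.2⟩⟩
    · rw [hadj q hq.1 _ hr h6.symm]
      exact fun h => h ⟨fun h' => absurd h' hq.2, fun h' => absurd h' hrB⟩
    · rw [hadj q hq.1 p hp.1 hpq.symm]
      exact fun h => hq.2 (h.mpr hp.2)
    · rw [hadj _ hr p hp.1 h5]
      exact fun h => hrB (h.mpr hp.2)

open Pool.Agent.R35.RPCount in
theorem admits_of_cond (n : ℕ) [NeZero n] (G : SimpleGraph (Fin n)) (h : Cond n G) :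
    Admits G := by
  classical
  obtain ⟨hcn, i, hi, hG, hcut⟩ := h
  have hin : 7 * i + 7 ≤ n := by omega
  let v : ∀ j, j < 7 → Fin n := fun j hj => ⟨7 * i + j, by omega⟩
  have hvm : ∀ j hj, v j hj ∈ blk n i := by
    intro j hj
    rw [blk, Finset.mem_filter]
    refine ⟨Finset.mem_univ _, ?_⟩
    simp only [v]
    omega
  have hne : ∀ j k hj hk, j ≠ k → v j hj ≠ v k hk := by
    intro j k hj hk hjk heq
    have := congrArg Fin.val heq
    simp only [v] at this
    omega
  have key : ∀ j k hj hk, j ≠ k → (G.Adj (v j hj) (v k hk) ↔ gad j k = true) := by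
    intro j k hj hk hjk
    rw [hG _ (hvm j hj) _ (hvm k hk) (hne j k hj hk hjk)]
    have e1 : (v j hj).val / 7 = (v k hk).val / 7 := by simp only [v]; omega
    have e2 : (v j hj).val % 7 = j := by simp only [v]; omega
    have e3 : (v k hk).val % 7 = k := by simp only [v]; omega
    change (v j hj).val / 7 = (v k hk).val / 7 ∧
      gad ((v j hj).val % 7) ((v k hk).val % 7) = true ↔ _
    rw [e2, e3]
    exact ⟨fun h => h.2, fun h => ⟨e1, h⟩⟩
  have kpos : ∀ j k hj hk, j ≠ k → gad j k = true → G.Adj (v j hj) (v k hk) :=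
    fun j k hj hk h1 h2 => (key j k hj hk h1).mpr h2
  have kneg : ∀ j k hj hk, j ≠ k → gad j k = false → ¬ G.Adj (v j hj) (v k hk) := by
    intro j k hj hk h1 h2 h3
    rw [key j k hj hk h1, h2] at h3
    exact Bool.false_ne_true h3
  have hg : Gadget G (v 0 (by norm_num)) (v 1 (by norm_num)) (v 2 (by norm_num))
      (v 3 (by norm_num)) (v 4 (by norm_num)) (v 5 (by norm_num)) (v 6 (by norm_num)) := by
    refine ⟨?_, ?_, ?_, ?_, ?_, ?_, ?_, ?_, ?_, ?_, ?_, ?_, ?_, ?_, ?_, ?_, ?_, ?_⟩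
    · simp [v]
    iterate 9 exact kpos _ _ (by norm_num) (by norm_num) (by norm_num) (by decide)
    iterate 8 exact kneg _ _ (by norm_num) (by norm_num) (by norm_num) (by decide)
  refine admits_of (S := {c | c ∈ blk n i}) hg ?_ hcn ?_
  · simp only [List.mem_cons, List.not_mem_nil, or_false, forall_eq_or_imp, forall_eq,
      Set.mem_ofPred_eq]
    exact ⟨hvm _ (by norm_num), hvm _ (by norm_num), hvm _ (by norm_num), hvm _ (by norm_num),
      hvm _ (by norm_num), hvm _ (by norm_num), hvm _ (by norm_num)⟩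
  · intro A hA hA'
    by_cases hc : 2 * (Finset.univ.filter (fun c : Fin n => c ∈ A)).card ≤ n
    · obtain ⟨t, ht, hadj⟩ := hcut (Finset.univ.filter (fun c : Fin n => c ∈ A)) (by
        obtain ⟨c, hcA⟩ := hA
        exact ⟨c, by simp [hcA]⟩) hc
      obtain ⟨p, q, r, h1, h2, h3, h4, h5, h6, h7⟩ := tri G _ _ ht hadj
      refine ⟨p, q, r, h1, h2, h3, h4, h5, h6, ?_⟩
      simpa using h7
    · have hc' : 2 * (Finset.univ.filter (fun c : Fin n => c ∉ A)).card ≤ n := by
        have := Finset.card_filter_add_card_filter_not (s := (Finset.univ : Finset (Fin n)))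
          (fun c => c ∈ A)
        rw [Finset.card_univ, Fintype.card_fin] at this
        omega
      obtain ⟨t, ht, hadj⟩ := hcut (Finset.univ.filter (fun c : Fin n => c ∉ A)) (by
        obtain ⟨c, hcA⟩ := hA'
        exact ⟨c, by simpa using hcA⟩) hc'
      obtain ⟨p, q, r, h1, h2, h3, h4, h5, h6, h7⟩ := tri G _ _ ht hadj
      refine ⟨p, q, r, h1, h2, h3, h4, h5, h6, ?_⟩
      simp only [Finset.mem_filter, Finset.mem_univ, true_and, not_not] at h7
      exact h7.symm

/-- The proportion of the labelled graphs on `n` vertices (equivalently, the probability for the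
uniformly random graph `G(n, 1/2)`) that admit a consistent path system which is irreducible and
not metrizable tends to `1`. -/
theorem result :
    Tendsto (fun n : ℕ => (Nat.card {G : SimpleGraph (Fin n) // Admits G} : ℝ) /
      (Nat.card (SimpleGraph (Fin n)) : ℝ)) atTop (𝓝 1) :=
  Pool.Agent.R35.RPCount.whp (fun _ G => Admits G) (fun n _ G h => admits_of_cond n G h)

end Pool.Agent.Results.MP_696e10_co.RandomGraph
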